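import Mathlib

/-!
# The block lemma

`H` is a subset of size `mu⁺` of a well-ordered set, `c` and `d` colour its pairs with colours in
a well-order `J` of size at most `mu` in which countable sets are bounded, and
`d z x ≤ c y x` implies `c y x < c y z` for `y < z < x` in `H`.  Then `c` is bounded on a subset of
`H` of size `mu⁺`.
-/

namespace Pool.Agent.Lib_MP_38e082_u

open Cardinal Set Order

theorem block {S : Type} [LinearOrder S] [WellFoundedLT S] {J : Type} [LinearOrder J]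
    [WellFoundedLT J] {mu : Cardinal.{0}} (hmu : ℵ₀ ≤ mu) (hJ : #J ≤ mu)
    (hJ2 : ∀ g : ℕ → J, ∃ i, ∀ n, g n ≤ i)
    (H : Set S) (hH : #H = succ mu) (d c : S → S → J)
    (hT : ∀ y ∈ H, ∀ z ∈ H, ∀ x ∈ H, y < z → z < x → d z x ≤ c y x → c y x < c y z) :
    ∃ B ⊆ H, #B = succ mu ∧ ∃ i, ∀ x ∈ B, ∀ y ∈ B, y < x → c y x ≤ i := by
  classical
  set G : Type := (succ mu).ord.ToType with hG
  have hGc : #G = succ mu := mk_ord_toType _
  have h1 : Ordinal.type (α := G) (· < ·) ≤ Ordinal.type (α := H) (· < ·) := by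
    have h2 : Ordinal.type (α := G) (· < ·) = (succ mu).ord := Ordinal.type_toType _
    rw [h2, ← hH]
    exact ord_le_type _
  obtain ⟨f⟩ := Ordinal.type_le_iff'.1 h1
  have hcl : ∀ o : Ordinal.{0}, o < (succ mu).ord → ∀ a : Ordinal.{0}, a ≤ Ordinal.omega0 →
      Ordinal.omega0 * o + a < (succ mu).ord := by
    intro o ho a ha
    rw [lt_ord] at ho ⊢
    rw [Ordinal.card_add, Ordinal.card_mul, Ordinal.card_omega0]
    refine lt_succ_iff.2 ?_
    have h3 : a.card ≤ mu := (Ordinal.card_le_card ha).trans (by simpa using hmu)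
    have h4 : o.card ≤ mu := lt_succ_iff.1 ho
    calc ℵ₀ * o.card + a.card ≤ mu * mu + mu := by gcongr
      _ = mu := by rw [mul_eq_self hmu, add_eq_self hmu]
  let o : G → Ordinal.{0} := fun g => (Ordinal.ToType.mk.symm g).1
  have ho : ∀ g, o g < (succ mu).ord := fun g => (Ordinal.ToType.mk.symm g).2
  have homono : ∀ g g' : G, g' < g → o g' < o g := fun g g' h =>
    Ordinal.ToType.mk.symm.strictMono h
  let P : G → (a : Ordinal.{0}) → a ≤ Ordinal.omega0 → H := fun g a ha =>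
    f (Ordinal.ToType.mk ⟨Ordinal.omega0 * o g + a, hcl (o g) (ho g) a ha⟩)
  have hP : ∀ g g' a a' (ha : a ≤ Ordinal.omega0) (ha' : a' ≤ Ordinal.omega0),
      Ordinal.omega0 * o g + a < Ordinal.omega0 * o g' + a' → (P g a ha).1 < (P g' a' ha').1 := by
    intro g g' a a' ha ha' h
    have h3 : (Ordinal.ToType.mk ⟨Ordinal.omega0 * o g + a, hcl (o g) (ho g) a ha⟩ : G) <
        Ordinal.ToType.mk ⟨Ordinal.omega0 * o g' + a', hcl (o g') (ho g') a' ha'⟩ :=
      Ordinal.ToType.mk.strictMono (by exact h)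
    exact f.map_rel_iff.2 h3
  have hnat : ∀ n : ℕ, ((n + 1 : ℕ) : Ordinal.{0}) ≤ Ordinal.omega0 :=
    fun n => (Ordinal.natCast_lt_omega0 _).le
  let X : G → S := fun g => (P g Ordinal.omega0 le_rfl).1
  let Z : G → ℕ → S := fun g n => (P g ((n + 1 : ℕ) : Ordinal.{0}) (hnat n)).1
  have hXH : ∀ g, X g ∈ H := fun g => (P g Ordinal.omega0 le_rfl).2
  have hZH : ∀ g n, Z g n ∈ H := fun g n => (P g _ (hnat n)).2
  have hZX : ∀ g n, Z g n < X g := fun g n =>
    hP g g _ _ (hnat n) le_rfl ((add_lt_add_iff_left _).2 (Ordinal.natCast_lt_omega0 _))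
  have hZZ : ∀ g n m, n < m → Z g n < Z g m := fun g n m hnm =>
    hP g g _ _ (hnat n) (hnat m)
      ((add_lt_add_iff_left _).2 (by exact_mod_cast Nat.succ_lt_succ hnm))
  have hXZ : ∀ g g' n, g' < g → X g' < Z g n := by
    intro g g' n hgg
    refine hP g' g _ _ le_rfl (hnat n) ?_
    have h3 : Ordinal.omega0 * o g' + Ordinal.omega0 ≤ Ordinal.omega0 * o g := by
      rw [← Ordinal.mul_succ]
      exact mul_le_mul_right (succ_le_of_lt (homono g g' hgg)) _
    refine h3.trans_lt ?_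
    simp
  have hXX : ∀ g g', g' < g → X g' < X g := fun g g' h => (hXZ g g' 0 h).trans (hZX g 0)
  have hXmono : StrictMono X := fun a b h => hXX b a h
  -- the bounds
  have hk : ∀ g, ∃ k : J, (∀ n, d (Z g n) (X g) ≤ k) ∧ ∀ n m, n < m → d (Z g n) (Z g m) ≤ k := by
    intro g
    obtain ⟨i1, h3⟩ := hJ2 (fun n => d (Z g n) (X g))
    obtain ⟨i2, h4⟩ := hJ2 (fun n => d (Z g n.unpair.1) (Z g n.unpair.2))
    refine ⟨max i1 i2, fun n => (h3 n).trans (le_max_left _ _), fun n m _ => ?_⟩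
    have h5 := h4 (Nat.pair n m)
    rw [Nat.unpair_pair] at h5
    exact h5.trans (le_max_right _ _)
  choose k hk1 hk2 using hk
  obtain ⟨i, hi⟩ := infinite_pigeonhole_card k (succ mu) hGc.ge (hmu.trans (le_succ mu)) (by
    rw [(isRegular_succ hmu).cof_ord]
    exact hJ.trans_lt (lt_succ mu))
  refine ⟨X '' (k ⁻¹' {i}), ?_, ?_, i, ?_⟩
  · rintro _ ⟨g, _, rfl⟩
    exact hXH g
  · rw [mk_image_eq hXmono.injective]
    refine le_antisymm ?_ hi
    exact (mk_set_le _).trans hGc.le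
  · rintro _ ⟨g, hg, rfl⟩ _ ⟨g', hg', rfl⟩ hlt
    have hgg : g' < g := hXmono.lt_iff_lt.1 hlt
    have hkg : k g = i := hg
    by_contra hcon
    rw [not_le] at hcon
    have h3 : ∀ n, i < c (X g') (Z g n) := by
      intro n
      refine hcon.trans (hT _ (hXH g') _ (hZH g n) _ (hXH g) (hXZ g g' n hgg) (hZX g n) ?_)
      exact (hk1 g n).trans (hkg.le.trans hcon.le)
    have h4 : ∀ n m, n < m → c (X g') (Z g m) < c (X g') (Z g n) := by
      intro n m hnm
      refine hT _ (hXH g') _ (hZH g n) _ (hZH g m) (hXZ g g' n hgg) (hZZ g n m hnm) ?_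
      exact (hk2 g n m hnm).trans (hkg.le.trans (h3 m).le)
    obtain ⟨j, ⟨n, rfl⟩, hj⟩ := (wellFounded_lt (α := J)).has_min
      (range fun n => c (X g') (Z g n)) ⟨_, ⟨0, rfl⟩⟩
    exact hj _ ⟨n + 1, rfl⟩ (h4 n (n + 1) (Nat.lt_succ_self n))

end Pool.Agent.Lib_MP_38e082_u
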